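import Pool.Agent.Helper84.OV.Zero

/-!
# Project OV (MP_57df85_nt): packet LOW
-/

set_option autoImplicit false

open Finset

namespace Pool.Agent.Helper32.OV.LOW

open Pool.Agent.Helper84.OV

open scoped Polynomial

theorem t : S_LOW := by
  intro N p k hN hd
  obtain ⟨M, rfl⟩ := hd
  have hM : M ≠ 0 := right_ne_zero_of_mul hN
  by_cases hp : p = 0
  · subst hp
    refine le_trans ?_ (n1_pos hN)
    rw [Int.natAbs_zero]
    exact pow_le_one' (by norm_num) _ 
  · obtain ⟨e, he⟩ : ∃ e, e = M.natTrailingDegree := ⟨_, rfl⟩
    have hMe : M.coeff e ≠ 0 := by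
      rw [he]
      exact Polynomial.trailingCoeff_nonzero_iff_nonzero.2 hM
    have hc : ((Polynomial.X - Polynomial.C p) ^ k * M).coeff e = (-p) ^ k * M.coeff e := by
      rw [Polynomial.coeff_mul, sum_eq_single (0, e)]
      · congr 1
        rw [Polynomial.coeff_zero_eq_eval_zero]
        simp
      · rintro ⟨i, j⟩ hij hne
        rw [HasAntidiagonal.mem_antidiagonal] at hij
        have hj : j < e := by
          have : i ≠ 0 := by
            rintro rfl
            apply hne
            simp at hij
            rw [hij]
          simp only at hij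
          omega
        rw [he] at hj
        have := Polynomial.coeff_eq_zero_of_lt_natTrailingDegree hj
        simp only
        rw [this, mul_zero]
      · intro h
        exact absurd (HasAntidiagonal.mem_antidiagonal.2 (zero_add e)) h
    have hle : (((Polynomial.X - Polynomial.C p) ^ k * M).coeff e).natAbs ≤
        n1 ((Polynomial.X - Polynomial.C p) ^ k * M) := by
      by_cases hs : e ∈ ((Polynomial.X - Polynomial.C p) ^ k * M).support
      · unfold n1
        exact single_le_sum (f := fun i =>
          (((Polynomial.X - Polynomial.C p) ^ k * M).coeff i).natAbs) (fun _ _ => Nat.zero_le _) hs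
      · rw [Polynomial.notMem_support_iff] at hs
        rw [hs]
        exact Nat.zero_le _
    refine le_trans ?_ hle
    rw [hc, Int.natAbs_mul, Int.natAbs_pow, Int.natAbs_neg]
    have : 1 ≤ (M.coeff e).natAbs := Nat.one_le_iff_ne_zero.2 (Int.natAbs_ne_zero.2 hMe)
    exact Nat.le_mul_of_pos_right _ this

end Pool.Agent.Helper32.OV.LOW
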