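import Pool.Agent.Helper84.OV.Zero

/-!
# Project OV (MP_57df85_nt): packet NUV
-/

set_option autoImplicit false

namespace Pool.Agent.Helper32.OV.NUV

open Pool.Agent.Helper84.OV

theorem t : S_NUV := by
  intro p q U V n0 n1 n2 hp hpq h1 h2 h3
  have hq : 0 < q := by linarith
  have hp1 : 0 < p - 1 := by linarith
  have hqp : 0 < q - p := by linarith
  have hA : 0 ≤ (p - 1) * q * n0 ^ 2 := by positivity
  have hB : 0 ≤ (q - p) * n2 ^ 2 := by positivity
  have hU : U ≠ 0 := by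
    rintro rfl
    rw [abs_zero] at h3
    linarith
  have hd : U ∣ (p - 1) * q * n0 ^ 2 + (q - p) * n2 ^ 2 := by
    refine ⟨(p - 1) * q * (n1 ^ 2 * U + 2 * n1 * n2 * V) + n2 ^ 2 * (q - 1) * p * U, ?_⟩
    have h0 : n0 = -(n1 * U + n2 * V) := by linarith
    rw [h0]
    linear_combination (-n2 ^ 2) * h1
  have h0 : (p - 1) * q * n0 ^ 2 + (q - p) * n2 ^ 2 = 0 := by
    refine Int.eq_zero_of_abs_lt_dvd ((abs_dvd U _).2 hd) ?_
    rw [abs_of_nonneg (by linarith)]
    exact h3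
  have hA0 : (p - 1) * q * n0 ^ 2 = 0 := by linarith
  have hB0 : (q - p) * n2 ^ 2 = 0 := by linarith
  have e0 : n0 = 0 := by
    rcases mul_eq_zero.1 hA0 with h | h
    · rcases mul_eq_zero.1 h with h | h <;> linarith
    · exact pow_eq_zero_iff (two_ne_zero) |>.1 h
  have e2 : n2 = 0 := by
    rcases mul_eq_zero.1 hB0 with h | h
    · linarith
    · exact pow_eq_zero_iff (two_ne_zero) |>.1 h
  refine ⟨e0, ?_, e2⟩
  rw [e0, e2] at h2
  have h4 : n1 * U = 0 := by linarith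
  exact (mul_eq_zero.1 h4).resolve_right hU

end Pool.Agent.Helper32.OV.NUV
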